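import Mathlib

/-!
# Jacobian rank and analytic spread in characteristic two

In characteristic two the Jacobian matrix of the nine `2 × 2` minors of a generic `3 × 3` matrix
has rank at most eight, while the ideal of these minors has analytic spread nine.
-/

set_option autoImplicit false

namespace Pool.Agent.Results.MP_188fab_co.JacobianSpread

open MvPolynomial

universe u

section Defs

variable (F : Type u) [Field F]

/-- The index set of the minimal binomial generators of `J_{G,H}`: the pairs of an edge
`{i, j}`, `i < j`, of `G` and an edge `{k, l}`, `k < l`, of `H`. -/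
abbrev GenIndex {V W : Type} [LinearOrder V] [LinearOrder W] (G : SimpleGraph V)
    (H : SimpleGraph W) : Type :=
  {e : (V × V) × (W × W) // e.1.1 < e.1.2 ∧ G.Adj e.1.1 e.1.2 ∧ e.2.1 < e.2.2 ∧
    H.Adj e.2.1 e.2.2}

/-- The binomial `x_{i,k} x_{j,l} - x_{i,l} x_{j,k}`. -/
noncomputable def gen {V W : Type} [LinearOrder V] [LinearOrder W] (G : SimpleGraph V)
    (H : SimpleGraph W) (e : GenIndex G H) : MvPolynomial (V × W) F :=
  X (e.1.1.1, e.1.2.1) * X (e.1.1.2, e.1.2.2) - X (e.1.1.1, e.1.2.2) * X (e.1.1.2, e.1.2.1)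

/-- The ideal `J_{G,H}`. -/
noncomputable def binomialIdeal {V W : Type} [LinearOrder V] [LinearOrder W] (G : SimpleGraph V)
    (H : SimpleGraph W) : Ideal (MvPolynomial (V × W) F) :=
  Ideal.span (Set.range (gen F G H))

/-- The Jacobian matrix of the minimal binomial generators of `J_{G,H}`. -/
noncomputable def jacobian {V W : Type} [LinearOrder V] [LinearOrder W] (G : SimpleGraph V)
    (H : SimpleGraph W) : Matrix (GenIndex G H) (V × W) (MvPolynomial (V × W) F) :=
  fun e v => pderiv v (gen F G H e)

/-- The rank of the Jacobian matrix over the field of rational functions in the variables. -/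
noncomputable def jacobianRank {V W : Type} [LinearOrder V] [LinearOrder W] [Fintype V]
    [Fintype W] (G : SimpleGraph V) (H : SimpleGraph W) : ℕ :=
  ((jacobian F G H).map
    (algebraMap (MvPolynomial (V × W) F) (FractionRing (MvPolynomial (V × W) F)))).rank

/-- The analytic spread of `I`: the Krull dimension of `⨁ I ^ t / 𝔪 I ^ t`, the quotient of the
Rees algebra of `I` by the extension of the ideal `𝔪` generated by the variables. -/
noncomputable def analyticSpread {σ : Type} (I : Ideal (MvPolynomial σ F)) : WithBot ℕ∞ :=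
  ringKrullDim (reesAlgebra I ⧸
    (idealOfVars σ F).map (algebraMap (MvPolynomial σ F) (reesAlgebra I)))

end Defs

section Fiber

variable {F : Type u} [Field F] {σ : Type} {E : Type} (g : E → MvPolynomial σ F)

/-- The ideal generated by the family. -/
noncomputable abbrev I : Ideal (MvPolynomial σ F) := Ideal.span (Set.range g)

/-- The element `g e * t` of the Rees algebra. -/
noncomputable def gt (e : E) : reesAlgebra (I g) :=
  ⟨Polynomial.monomial 1 (g e), by
    rw [reesAlgebra.monomial_mem, pow_one]
    exact Ideal.subset_span ⟨e, rfl⟩⟩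

/-- The natural map from the polynomial ring to the Rees algebra. -/
noncomputable def toRees : MvPolynomial E F →ₐ[F] reesAlgebra (I g) :=
  aeval (gt g)

/-- The extension of the ideal of variables to the Rees algebra. -/
noncomputable abbrev mR : Ideal (reesAlgebra (I g)) :=
  (idealOfVars σ F).map (algebraMap (MvPolynomial σ F) (reesAlgebra (I g)))

/-- The map to the fiber ring. -/
noncomputable def toFiber : MvPolynomial E F →+* (reesAlgebra (I g) ⧸ mR g) :=
  (Ideal.Quotient.mk (mR g)).comp (toRees g).toRingHom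

lemma coe_toRees_monomial (s : E →₀ ℕ) (a : F) :
    ((toRees g (monomial s a) : reesAlgebra (I g)) : Polynomial (MvPolynomial σ F)) =
        Polynomial.monomial s.degree (aeval g (monomial s a)) := by
  rw [toRees, aeval_monomial, aeval_monomial, Subalgebra.coe_mul]
  have h1 : ((s.prod fun i k => gt g i ^ k : reesAlgebra (I g)) :
      Polynomial (MvPolynomial σ F)) =
      Polynomial.C (s.prod fun i k => g i ^ k) * Polynomial.X ^ s.degree := by
    rw [Finsupp.prod, ← Subalgebra.coe_val, map_prod, Finsupp.prod, map_prod,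
      Finsupp.degree_apply, ← Finset.prod_pow_eq_pow_sum, ← Finset.prod_mul_distrib]
    apply Finset.prod_congr rfl
    intro i _
    have h3 : ((gt g i : reesAlgebra (I g)) : Polynomial (MvPolynomial σ F)) =
        Polynomial.C (g i) * Polynomial.X := (Polynomial.C_mul_X_eq_monomial).symm
    rw [Subalgebra.coe_val, Subalgebra.coe_pow, map_pow, h3, mul_pow]
  have h2 : ((algebraMap F (reesAlgebra (I g)) a : reesAlgebra (I g)) :
      Polynomial (MvPolynomial σ F)) = Polynomial.C (algebraMap F (MvPolynomial σ F) a) := rfl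
  rw [h1, h2, ← mul_assoc, ← Polynomial.C_mul, Polynomial.C_mul_X_pow_eq_monomial]

lemma coeff_toRees (P : MvPolynomial E F) (d : ℕ) :
    ((toRees g P : reesAlgebra (I g)) : Polynomial (MvPolynomial σ F)).coeff d =
      aeval g (homogeneousComponent d P) := by
  induction P using MvPolynomial.induction_on' with
  | monomial s a =>
    rw [coe_toRees_monomial, Polynomial.coeff_monomial]
    split_ifs with h
    · rw [homogeneousComponent_of_mem (isHomogeneous_monomial a h)]
      simp
    · rw [homogeneousComponent_of_mem (isHomogeneous_monomial a rfl), if_neg (Ne.symm h)]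
      simp
  | add p q hp hq =>
    simp only [map_add, Subalgebra.coe_add, Polynomial.coeff_add, hp, hq]

/-- The elements of the Rees algebra whose coefficient at `d` has order more than `2 d`. -/
noncomputable def N (hg : ∀ e, (g e).IsHomogeneous 2) : Ideal (reesAlgebra (I g)) where
  carrier := {f | ∀ d, (f : Polynomial (MvPolynomial σ F)).coeff d ∈ idealOfVars σ F ^ (2 * d + 1)}
  add_mem' := by
    intro a b ha hb d
    rw [Subalgebra.coe_add, Polynomial.coeff_add]
    exact Ideal.add_mem _ (ha d) (hb d)
  zero_mem' := by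
    intro d
    simp
  smul_mem' := by
    intro c x hx d
    rw [smul_eq_mul, Subalgebra.coe_mul, Polynomial.coeff_mul]
    refine Ideal.sum_mem _ ?_
    rintro ⟨i, j⟩ hij
    replace hij : i + j = d := Finset.HasAntidiagonal.mem_antidiagonal.1 hij
    have h1 : I g ≤ idealOfVars σ F ^ 2 := by
      rw [Ideal.span_le]
      rintro _ ⟨e, rfl⟩
      rw [SetLike.mem_coe, mem_pow_idealOfVars_iff]
      intro s hs
      exact ((hg e).degree_eq_sum_deg_support hs).le
    have h2 := c.2 i
    have h3 : (c : Polynomial (MvPolynomial σ F)).coeff i ∈ idealOfVars σ F ^ (2 * i) := by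
      rw [pow_mul]
      exact Ideal.pow_right_mono h1 i h2
    have h4 := Ideal.mul_mem_mul h3 (hx j)
    rw [← pow_add] at h4
    have : 2 * i + (2 * j + 1) = 2 * d + 1 := by omega
    rw [this] at h4
    exact h4

lemma mR_le_N (hg : ∀ e, (g e).IsHomogeneous 2) : mR g ≤ N g hg := by
  rw [mR, Ideal.map_le_iff_le_comap]
  intro p hp
  rw [Ideal.mem_comap]
  intro d
  have : ((algebraMap (MvPolynomial σ F) (reesAlgebra (I g)) p : reesAlgebra (I g)) :
      Polynomial (MvPolynomial σ F)) = Polynomial.C p := rfl
  rw [this, Polynomial.coeff_C]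
  split_ifs with h
  · subst h
    simpa using hp
  · exact Ideal.zero_mem _

lemma toFiber_injective (hg : ∀ e, (g e).IsHomogeneous 2) (hi : AlgebraicIndependent F g) :
    Function.Injective (toFiber g) := by
  rw [injective_iff_map_eq_zero]
  intro P hP
  have h1 : toRees g P ∈ mR g := Ideal.Quotient.eq_zero_iff_mem.1 hP
  have h2 := mR_le_N g hg h1
  have h3 : ∀ d, homogeneousComponent d P = 0 := by
    intro d
    have h4 := h2 d
    rw [coeff_toRees] at h4
    have h5 : (aeval g (homogeneousComponent d P) : MvPolynomial σ F).IsHomogeneous (2 * d) := by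
      have := IsHomogeneous.aeval (homogeneousComponent_isHomogeneous d P) g hg
      exact this
    have h6 : aeval g (homogeneousComponent d P) = 0 := by
      rw [mem_pow_idealOfVars_iff] at h4
      by_contra hne
      obtain ⟨s, hs⟩ := MvPolynomial.support_nonempty.2 hne
      have h7 := h4 s hs
      have h8 := h5.degree_eq_sum_deg_support hs
      rw [Finsupp.degree_apply] at h7
      omega
    exact (algebraicIndependent_iff.1 hi) _ h6
  rw [← MvPolynomial.sum_homogeneousComponent P]
  exact Finset.sum_eq_zero fun d _ => h3 d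

lemma toFiber_X (e : E) : toFiber g (X e) = Ideal.Quotient.mk (mR g) (gt g e) := by
  simp [toFiber, toRees]

lemma toFiber_C (a : F) : toFiber g (C a) =
    Ideal.Quotient.mk (mR g) (algebraMap F (reesAlgebra (I g)) a) := by
  simp only [toFiber, toRees, AlgHom.toRingHom_eq_coe, RingHom.coe_comp, RingHom.coe_coe,
    Function.comp_apply]
  rw [aeval_C]

lemma mk_algebraMap (r : MvPolynomial σ F) :
    Ideal.Quotient.mk (mR g) (algebraMap (MvPolynomial σ F) (reesAlgebra (I g)) r) =
      toFiber g (C (constantCoeff r)) := by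
  rw [toFiber_C, Ideal.Quotient.mk_eq_mk_iff_sub_mem]
  have h1 : algebraMap F (reesAlgebra (I g)) (constantCoeff r) =
      algebraMap (MvPolynomial σ F) (reesAlgebra (I g)) (C (constantCoeff r)) := rfl
  rw [h1, ← map_sub]
  apply Ideal.mem_map_of_mem
  have h2 := (mem_pow_idealOfVars_iff' 1 (r - C (constantCoeff r))).2 (by
    intro x hx
    have hx0 : x = 0 := by
      rw [← Finsupp.degree_eq_zero_iff]
      omega
    subst hx0
    simp [constantCoeff_eq])
  simpa using h2

lemma toFiber_surjective : Function.Surjective (toFiber g) := by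
  intro y
  obtain ⟨x, rfl⟩ := Ideal.Quotient.mk_surjective y
  have hadj : Algebra.adjoin (MvPolynomial σ F)
      ((Polynomial.monomial 1 : MvPolynomial σ F →ₗ[MvPolynomial σ F] _) '' (Set.range g)) =
      reesAlgebra (I g) := by
    rw [← adjoin_monomial_eq_reesAlgebra, I, Ideal.span, Submodule.map_span,
      Algebra.adjoin_span]
  have key : ∀ (z : Polynomial (MvPolynomial σ F)) (hz : z ∈ Algebra.adjoin (MvPolynomial σ F)
      ((Polynomial.monomial 1 : MvPolynomial σ F →ₗ[MvPolynomial σ F] _) '' (Set.range g))),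
      ∃ P, toFiber g P = Ideal.Quotient.mk (mR g) ⟨z, hadj ▸ hz⟩ := by
    intro z hz
    induction hz using Algebra.adjoin_induction with
    | mem x hx =>
      obtain ⟨_, ⟨e, rfl⟩, rfl⟩ := hx
      exact ⟨X e, toFiber_X g e⟩
    | algebraMap r => exact ⟨_, (mk_algebraMap g r).symm⟩
    | add x y hx hy h1 h2 =>
      obtain ⟨P, hP⟩ := h1
      obtain ⟨Q, hQ⟩ := h2
      refine ⟨P + Q, ?_⟩
      rw [map_add, hP, hQ, ← map_add]
      rfl
    | mul x y hx hy h1 h2 =>
      obtain ⟨P, hP⟩ := h1
      obtain ⟨Q, hQ⟩ := h2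
      refine ⟨P * Q, ?_⟩
      rw [map_mul, hP, hQ, ← map_mul]
      rfl
  exact key x.1 (by rw [hadj]; exact x.2)

lemma spread_eq [Finite E] (hg : ∀ e, (g e).IsHomogeneous 2) (hi : AlgebraicIndependent F g) :
    analyticSpread F (I g) = Nat.card E := by
  have e : MvPolynomial E F ≃+* (reesAlgebra (I g) ⧸ mR g) :=
    RingEquiv.ofBijective (toFiber g) ⟨toFiber_injective g hg hi, toFiber_surjective g⟩
  rw [analyticSpread, ← ringKrullDim_eq_of_ringEquiv e,
    MvPolynomial.ringKrullDim_of_isNoetherianRing, ringKrullDim_eq_zero_of_field, zero_add]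

end Fiber

section Three

variable (F : Type u) [Field F]

/-- The complete graph on three vertices. -/
abbrev K3 : SimpleGraph (Fin 3) := ⊤

/-- The generic `3 × 3` matrix. -/
noncomputable abbrev Xm : Matrix (Fin 3) (Fin 3) (MvPolynomial (Fin 3 × Fin 3) F) :=
  Matrix.mvPolynomialX (Fin 3) (Fin 3) F

/-- The subalgebra generated by the nine minors. -/
noncomputable abbrev B : Subalgebra F (MvPolynomial (Fin 3 × Fin 3) F) :=
  Algebra.adjoin F (Set.range (gen F K3 K3))

lemma minor_mem (i j k l : Fin 3) (hij : i < j) (hkl : k < l) :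
    X (i, k) * X (j, l) - X (i, l) * X (j, k) ∈ B F :=
  Algebra.subset_adjoin ⟨⟨((i, j), (k, l)), hij, hij.ne, hkl, hkl.ne⟩, rfl⟩

lemma adj_mem (i j : Fin 3) : (Xm F).adjugate i j ∈ B F := by
  have h := fun i j k l hij hkl => minor_mem F i j k l hij hkl
  rw [Matrix.adjugate_fin_three]
  fin_cases i <;> fin_cases j
  · have := h 1 2 1 2 (by decide) (by decide)
    simpa [Matrix.mvPolynomialX_apply] using this
  · have := (B F).neg_mem (h 0 2 1 2 (by decide) (by decide))
    convert this using 1
    simp [Matrix.mvPolynomialX_apply]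
    ring
  · have := h 0 1 1 2 (by decide) (by decide)
    simpa [Matrix.mvPolynomialX_apply] using this
  · have := (B F).neg_mem (h 1 2 0 2 (by decide) (by decide))
    convert this using 1
    simp [Matrix.mvPolynomialX_apply]
    ring
  · have := h 0 2 0 2 (by decide) (by decide)
    simpa [Matrix.mvPolynomialX_apply] using this
  · have := (B F).neg_mem (h 0 1 0 2 (by decide) (by decide))
    convert this using 1
    simp [Matrix.mvPolynomialX_apply]
    ring
  · have := h 1 2 0 1 (by decide) (by decide)
    simpa [Matrix.mvPolynomialX_apply] using this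
  · have := (B F).neg_mem (h 0 2 0 1 (by decide) (by decide))
    convert this using 1
    simp [Matrix.mvPolynomialX_apply]
    ring
  · have := h 0 1 0 1 (by decide) (by decide)
    simpa [Matrix.mvPolynomialX_apply] using this

lemma alg_of_mem {x : MvPolynomial (Fin 3 × Fin 3) F} (hx : x ∈ B F) : IsAlgebraic (B F) x :=
  isAlgebraic_algebraMap (⟨x, hx⟩ : B F)

lemma X_alg (i j : Fin 3) : IsAlgebraic (B F) (X (i, j) : MvPolynomial (Fin 3 × Fin 3) F) := by
  let AB : Matrix (Fin 3) (Fin 3) (B F) := fun i j => ⟨(Xm F).adjugate i j, adj_mem F i j⟩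
  have hAB : (algebraMap (B F) (MvPolynomial (Fin 3 × Fin 3) F)).mapMatrix AB =
      (Xm F).adjugate := by
    ext i j : 2
    rfl
  have hdet : (Xm F).det ^ 2 = algebraMap (B F) (MvPolynomial (Fin 3 × Fin 3) F) AB.det := by
    rw [RingHom.map_det, hAB, Matrix.det_adjugate]
    rfl
  have hD : IsAlgebraic (B F) (Xm F).det := by
    refine IsAlgebraic.of_pow (n := 2) (by norm_num) ?_
    rw [hdet]
    exact isAlgebraic_algebraMap _
  have hadj : (Xm F).det * X (i, j) =
      algebraMap (B F) (MvPolynomial (Fin 3 × Fin 3) F) (AB.adjugate i j) := by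
    have h1 : (algebraMap (B F) (MvPolynomial (Fin 3 × Fin 3) F)).mapMatrix AB.adjugate =
        (Xm F).det ^ (Fintype.card (Fin 3) - 2) • Xm F := by
      rw [RingHom.map_adjugate, hAB, Matrix.adjugate_adjugate _ (by simp)]
    have h2 := congrFun (congrFun h1 i) j
    rw [RingHom.mapMatrix_apply, Matrix.map_apply] at h2
    rw [h2]
    simp [Matrix.mvPolynomialX_apply]
  refine hD.of_mul (mem_nonZeroDivisors_of_ne_zero (Matrix.det_mvPolynomialX_ne_zero _ _)) ?_
  rw [hadj]
  exact isAlgebraic_algebraMap _

instance : Fintype (GenIndex K3 K3) := by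
  unfold GenIndex
  infer_instance

lemma card_index : Nat.card (GenIndex K3 K3) = 9 := by
  rw [Nat.card_eq_fintype_card]
  decide

lemma gens_indep : AlgebraicIndependent F (gen F K3 K3) := by
  have : Algebra.IsAlgebraic (B F) (MvPolynomial (Fin 3 × Fin 3) F) := by
    constructor
    intro p
    induction p using MvPolynomial.induction_on with
    | C a => exact alg_of_mem F ((B F).algebraMap_mem a)
    | add p q hp hq => exact hp.add hq
    | mul_X p n hp => exact hp.mul (X_alg F n.1 n.2)
  refine (Algebra.IsAlgebraic.isTranscendenceBasis_of_lift_le_trdeg_of_finite F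
    (gen F K3 K3) ?_).1
  rw [MvPolynomial.trdeg_of_isDomain]
  have h1 : Cardinal.mk (GenIndex K3 K3) = 9 := by
    rw [← Nat.cast_card, card_index]
    rfl
  rw [h1]
  simp

lemma gen_hom (e : GenIndex K3 K3) : (gen F K3 K3 e).IsHomogeneous 2 := by
  have h : ∀ a b : Fin 3 × Fin 3,
      (X a * X b : MvPolynomial (Fin 3 × Fin 3) F).IsHomogeneous 2 := by
    intro a b
    have := (isHomogeneous_X F a).mul (isHomogeneous_X F b)
    simpa using this
  exact (h _ _).sub (h _ _)

lemma rank_le [CharP F 2] : jacobianRank F K3 K3 ≤ 8 := by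
  set L := FractionRing (MvPolynomial (Fin 3 × Fin 3) F) with hL
  set M := (jacobian F K3 K3).map (algebraMap (MvPolynomial (Fin 3 × Fin 3) F) L) with hM
  let x : Fin 3 × Fin 3 → L := fun v =>
    algebraMap (MvPolynomial (Fin 3 × Fin 3) F) L (X v : MvPolynomial (Fin 3 × Fin 3) F)
  have hx : M.mulVecLin x = 0 := by
    ext e
    rw [Matrix.mulVecLin_apply, Matrix.mulVec, dotProduct]
    have h1 : ∀ v : Fin 3 × Fin 3, M e v * x v =
        algebraMap (MvPolynomial (Fin 3 × Fin 3) F) L
          ((X v : MvPolynomial (Fin 3 × Fin 3) F) * pderiv v (gen F K3 K3 e)) := by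
      intro v
      rw [hM, Matrix.map_apply, jacobian, map_mul, mul_comm]
    rw [Finset.sum_congr rfl fun v _ => h1 v, ← map_sum, (gen_hom F e).sum_X_mul_pderiv,
      two_nsmul, CharTwo.add_self_eq_zero, map_zero]
    rfl
  have hx0 : x ≠ 0 := by
    intro h
    have h2 := congrFun h (0, 0)
    have h3 : algebraMap (MvPolynomial (Fin 3 × Fin 3) F) L (X (0, 0)) = 0 := h2
    rw [map_eq_zero_iff _ (IsFractionRing.injective _ _)] at h3
    exact X_ne_zero _ h3
  have h4 := M.mulVecLin.finrank_range_add_finrank_ker
  have h5 : 0 < Module.finrank L (LinearMap.ker M.mulVecLin) := by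
    rw [Module.finrank_pos_iff_exists_ne_zero]
    exact ⟨⟨x, hx⟩, fun h => hx0 (congrArg Subtype.val h)⟩
  have h6 : Module.finrank L (Fin 3 × Fin 3 → L) = 9 := by simp
  rw [h6] at h4
  change Module.finrank L (LinearMap.range M.mulVecLin) ≤ 8
  omega

end Three

/-- Over every field of characteristic two, the Jacobian matrix of the nine `2 × 2` minors of the
generic `3 × 3` matrix has rank at most `8`, while the ideal they generate has analytic spread
`9`. -/
theorem result (F : Type u) [Field F] [CharP F 2] :
    jacobianRank F (⊤ : SimpleGraph (Fin 3)) (⊤ : SimpleGraph (Fin 3)) ≤ 8 ∧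
      analyticSpread F (binomialIdeal F (⊤ : SimpleGraph (Fin 3)) (⊤ : SimpleGraph (Fin 3))) =
        9 := by
  refine ⟨rank_le F, ?_⟩
  have := spread_eq (gen F K3 K3) (gen_hom F) (gens_indep F)
  rw [card_index] at this
  exact this

end Pool.Agent.Results.MP_188fab_co.JacobianSpread
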