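import Mathlib

/-!
# Algebraic matroids of quadratic forms need not be linear

Over every field `F` of characteristic two with more than two elements there are ten quadratic
forms in four variables whose algebraic matroid is not representable over any field: modulo the
form `w²` they violate Pappus' theorem.
-/

set_option autoImplicit false

namespace Pool.Agent.Results.MP_188fab_co.QuadraticNotLinear

open MvPolynomial

universe u v w

section Linear

variable {K : Type v} [Field K] {V : Type w} [AddCommGroup V] [Module K V]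

lemma span_of_dep {a b c d : V} (h : LinearIndependent K ![a, b, c])
    (hd : ¬ LinearIndependent K ![d, a, b, c]) : ∃ x y z : K, d = x • a + y • b + z • c := by
  have h1 : ¬ LinearIndependent K (Fin.cons d ![a, b, c] : Fin 4 → V) := hd
  rw [linearIndependent_finCons] at h1
  have h2 : d ∈ Submodule.span K (Set.range ![a, b, c]) := by
    by_contra hh
    exact h1 ⟨h, hh⟩
  rw [Submodule.mem_span_range_iff_exists_fun] at h2
  obtain ⟨e, he⟩ := h2
  refine ⟨e 0, e 1, e 2, ?_⟩
  rw [← he, Fin.sum_univ_three]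
  rfl

lemma coeff_zero {a b c d : V} (h : LinearIndependent K ![a, b, c, d]) {x y z t : K}
    (he : x • a + y • b + z • c + t • d = 0) : x = 0 ∧ y = 0 ∧ z = 0 ∧ t = 0 := by
  rw [Fintype.linearIndependent_iff] at h
  have h1 := h ![x, y, z, t] (by
    rw [Fin.sum_univ_four]
    exact he)
  exact ⟨h1 0, h1 1, h1 2, h1 3⟩

lemma indep_tail {a b c d : V} (h : LinearIndependent K ![a, b, c, d]) :
    LinearIndependent K ![b, c, d] :=
  (linearIndependent_finCons (v := ![b, c, d]) (x := a)).1 h |>.1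

/-- independence of three of the four vectors -/
lemma indep_sub {a b c d : V} (h : LinearIndependent K ![a, b, c, d]) (i : Fin 3 → Fin 4)
    (hi : Function.Injective i) : LinearIndependent K (![a, b, c, d] ∘ i) :=
  h.comp i hi

/-- Pappus' theorem modulo the vector `W`. -/
lemma pappus {W P1 P2 P3 Q1 Q2 Q3 R1 R2 R3 : V}
    (i1 : LinearIndependent K ![W, P1, P2, Q1])
    (i2 : LinearIndependent K ![W, P1, Q1, Q2])
    (i3 : LinearIndependent K ![W, P1, P2, Q3])
    (i4 : LinearIndependent K ![W, P2, P3, Q1])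
    (i5 : LinearIndependent K ![W, P2, P3, Q2])
    (d1 : ¬ LinearIndependent K ![Q2, P1, P2, Q1])
    (d2 : ¬ LinearIndependent K ![P3, W, P1, P2])
    (d3 : ¬ LinearIndependent K ![Q3, W, Q1, Q2])
    (d4 : ¬ LinearIndependent K ![R3, W, P1, Q2])
    (d5 : ¬ LinearIndependent K ![R3, W, P2, Q1])
    (d6 : ¬ LinearIndependent K ![R2, W, P1, Q3])
    (d7 : ¬ LinearIndependent K ![R2, W, P3, Q1])
    (d8 : ¬ LinearIndependent K ![R1, W, P2, Q3])
    (d9 : ¬ LinearIndependent K ![R1, W, P3, Q2]) :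
    ¬ LinearIndependent K ![W, R1, R2, R3] := by
  have j1 : LinearIndependent K ![P1, P2, Q1] := indep_tail i1
  have j2 : LinearIndependent K ![W, P1, P2] := by
    have := indep_sub i1 ![0, 1, 2] (by decide)
    convert this using 1
    ext i; fin_cases i <;> rfl
  have j3 : LinearIndependent K ![W, Q1, Q2] := by
    have := indep_sub i2 ![0, 2, 3] (by decide)
    convert this using 1
    ext i; fin_cases i <;> rfl
  have j4 : LinearIndependent K ![W, P1, Q2] := by
    have := indep_sub i2 ![0, 1, 3] (by decide)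
    convert this using 1
    ext i; fin_cases i <;> rfl
  have j5 : LinearIndependent K ![W, P2, Q1] := by
    have := indep_sub i1 ![0, 2, 3] (by decide)
    convert this using 1
    ext i; fin_cases i <;> rfl
  have j6 : LinearIndependent K ![W, P1, Q3] := by
    have := indep_sub i3 ![0, 1, 3] (by decide)
    convert this using 1
    ext i; fin_cases i <;> rfl
  have j7 : LinearIndependent K ![W, P3, Q1] := by
    have := indep_sub i4 ![0, 2, 3] (by decide)
    convert this using 1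
    ext i; fin_cases i <;> rfl
  have j8 : LinearIndependent K ![W, P2, Q3] := by
    have := indep_sub i3 ![0, 2, 3] (by decide)
    convert this using 1
    ext i; fin_cases i <;> rfl
  have j9 : LinearIndependent K ![W, P3, Q2] := by
    have := indep_sub i5 ![0, 2, 3] (by decide)
    convert this using 1
    ext i; fin_cases i <;> rfl
  obtain ⟨a, b, c, e1⟩ := span_of_dep j1 d1
  obtain ⟨p0, lam, rho, e2⟩ := span_of_dep j2 d2
  obtain ⟨q0, kap, mu, e3⟩ := span_of_dep j3 d3
  obtain ⟨r0, x3, y3, e4⟩ := span_of_dep j4 d4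
  obtain ⟨r0', z3, w3, e5⟩ := span_of_dep j5 d5
  obtain ⟨s0, x2, y2, e6⟩ := span_of_dep j6 d6
  obtain ⟨s0', z2, w2, e7⟩ := span_of_dep j7 d7
  obtain ⟨t0, x1, y1, e8⟩ := span_of_dep j8 d8
  obtain ⟨t0', z1, w1, e9⟩ := span_of_dep j9 d9
  have f3 := coeff_zero i1 (x := r0 - r0') (y := x3 + y3 * a) (z := y3 * b - z3)
    (t := y3 * c - w3) (by
      have h : R3 - R3 = 0 := sub_self _
      nth_rewrite 1 [e4] at h
      rw [e5, e1] at h
      rw [← h]
      module)
  have f2 := coeff_zero i1 (x := s0 + y2 * q0 - (s0' + z2 * p0)) (y := x2 + y2 * mu * a - z2 * lam)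
    (z := y2 * mu * b - z2 * rho) (t := y2 * (mu * c + kap) - w2) (by
      have h : R2 - R2 = 0 := sub_self _
      nth_rewrite 1 [e6] at h
      rw [e7, e3, e2, e1] at h
      rw [← h]
      module)
  have f1 := coeff_zero i1 (x := t0 + y1 * q0 - (t0' + z1 * p0))
    (y := y1 * mu * a - z1 * lam - w1 * a)
    (z := x1 + y1 * mu * b - z1 * rho - w1 * b) (t := y1 * (mu * c + kap) - w1 * c) (by
      have h : R1 - R1 = 0 := sub_self _
      nth_rewrite 1 [e8] at h
      rw [e9, e3, e2, e1] at h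
      rw [← h]
      module)
  let M : Matrix (Fin 3) (Fin 3) K :=
    !![z1 * lam + w1 * a, z1 * rho + w1 * b, w1 * c;
       z2 * lam, z2 * rho, w2;
       0, z3, w3]
  have hdet : M.det = 0 := by
    have g1 : z3 = y3 * b := (sub_eq_zero.1 f3.2.2.1).symm
    have g2 : w3 = y3 * c := (sub_eq_zero.1 f3.2.2.2).symm
    have g3 := f2.2.2.1
    have g4 := f2.2.2.2
    have g5 := f1.2.1
    have g6 := f1.2.2.2
    simp only [M, Matrix.det_fin_three, Matrix.of_apply, Matrix.cons_val', Matrix.cons_val_zero,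
      Matrix.cons_val_one, Matrix.cons_val, g1, g2]
    linear_combination y3 * (-a * z2 * rho * g6 - a * y1 * (mu * c + kap) * g3 + b * w2 * g5 +
      b * y1 * mu * a * g4)
  obtain ⟨e, hne, he⟩ := Matrix.exists_vecMul_eq_zero_iff.2 hdet
  intro hR
  have k0 := congrFun he 0
  have k1 := congrFun he 1
  have k2 := congrFun he 2
  simp only [M, Matrix.vecMul, dotProduct, Fin.sum_univ_three, Matrix.of_apply, Matrix.cons_val',
    Matrix.cons_val_zero, Matrix.cons_val_one, Matrix.cons_val, Pi.zero_apply] at k0 k1 k2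
  have key := coeff_zero hR (x := -(e 0 * (t0' + z1 * p0) + e 1 * (s0' + z2 * p0) + e 2 * r0'))
    (y := e 0) (z := e 1) (t := e 2) (by
      rw [e9, e7, e5, e2, e1]
      have : -(e 0 * (t0' + z1 * p0) + e 1 * (s0' + z2 * p0) + e 2 * r0') • W +
          e 0 • (t0' • W + z1 • (p0 • W + lam • P1 + rho • P2) + w1 • (a • P1 + b • P2 + c • Q1)) +
          e 1 • (s0' • W + z2 • (p0 • W + lam • P1 + rho • P2) + w2 • Q1) +
          e 2 • (r0' • W + z3 • P2 + w3 • Q1) =
          (e 0 * (z1 * lam + w1 * a) + e 1 * (z2 * lam) + e 2 * 0) • P1 +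
          (e 0 * (z1 * rho + w1 * b) + e 1 * (z2 * rho) + e 2 * z3) • P2 +
          (e 0 * (w1 * c) + e 1 * w2 + e 2 * w3) • Q1 := by
        module
      rw [this, k0, k1, k2]
      simp)
  apply hne
  ext i
  fin_cases i
  · exact key.2.1
  · exact key.2.2.1
  · exact key.2.2.2

end Linear

section Algebraic

variable {F : Type u} [Field F]

lemma indep4 (f : Fin 4 → MvPolynomial (Fin 4) F)
    (h : ∀ i, IsAlgebraic (Algebra.adjoin F (Set.range f)) (X i : MvPolynomial (Fin 4) F)) :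
    AlgebraicIndependent F f := by
  have : Algebra.IsAlgebraic (Algebra.adjoin F (Set.range f)) (MvPolynomial (Fin 4) F) := by
    constructor
    intro p
    induction p using MvPolynomial.induction_on with
    | C a =>
      have : (C a : MvPolynomial (Fin 4) F) =
          algebraMap (Algebra.adjoin F (Set.range f)) (MvPolynomial (Fin 4) F)
            (algebraMap F _ a) := by
        rw [← IsScalarTower.algebraMap_apply]
        rfl
      rw [this]
      exact isAlgebraic_algebraMap _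
    | add p q hp hq => exact hp.add hq
    | mul_X p n hp => exact hp.mul (h n)
  refine (Algebra.IsAlgebraic.isTranscendenceBasis_of_lift_le_trdeg_of_finite F f ?_).1
  rw [MvPolynomial.trdeg_of_isDomain]
  simp

lemma dep4 {a b c d : MvPolynomial (Fin 4) F} (p : MvPolynomial (Fin 4) F)
    (h : aeval ![a, b, c, d] p = 0) (e : Fin 4 → F) (hp : eval e p ≠ 0) :
    ¬ AlgebraicIndependent F ![a, b, c, d] := by
  intro hi
  rw [algebraicIndependent_iff] at hi
  apply hp
  rw [hi p h, map_zero]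

/-- The ten quadratic forms. -/
noncomputable def forms (t : F) : Fin 10 → MvPolynomial (Fin 4) F :=
  ![X 3 ^ 2, X 0 * X 3, X 1 * X 3, X 2 * X 3, (X 0 + X 1 + X 2) * X 3, X 0 * X 3 + X 1 ^ 2,
    (X 0 + X 1 + C t * X 2) * X 3, (X 1 + X 2) * X 3,
    X 0 * X 3 + X 1 ^ 2 + C (t ^ 2) * X 2 ^ 2,
    X 0 * X 3 + C (1 + t) * X 1 ^ 2 + C t * (X 1 + X 2) * X 3]

lemma forms_hom (t : F) (i : Fin 10) : (forms t i).IsHomogeneous 2 := by
  have hX : ∀ j : Fin 4, (X j : MvPolynomial (Fin 4) F).IsHomogeneous 1 :=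
    fun j => isHomogeneous_X F j
  have hC : ∀ a : F, (C a : MvPolynomial (Fin 4) F).IsHomogeneous 0 :=
    fun a => isHomogeneous_C (Fin 4) a
  have hCX : ∀ (a : F) (j : Fin 4), (C a * X j : MvPolynomial (Fin 4) F).IsHomogeneous 1 := by
    intro a j
    have := (hC a).mul (hX j)
    simpa using this
  have hXX : ∀ j k : Fin 4, (X j * X k : MvPolynomial (Fin 4) F).IsHomogeneous 2 := by
    intro j k
    have := (hX j).mul (hX k)
    simpa using this
  have hX2 : ∀ j : Fin 4, (X j ^ 2 : MvPolynomial (Fin 4) F).IsHomogeneous 2 := by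
    intro j
    have := (hX j).pow 2
    simpa using this
  have hCX2 : ∀ (a : F) (j : Fin 4), (C a * X j ^ 2 : MvPolynomial (Fin 4) F).IsHomogeneous 2 := by
    intro a j
    have := (hC a).mul (hX2 j)
    simpa using this
  have hL : ∀ (p : MvPolynomial (Fin 4) F) (j : Fin 4), p.IsHomogeneous 1 →
      (p * X j).IsHomogeneous 2 := by
    intro p j hp
    have := hp.mul (hX j)
    simpa using this
  fin_cases i
  · exact hX2 3
  · exact hXX 0 3
  · exact hXX 1 3
  · exact hXX 2 3
  · exact hL _ 3 (((hX 0).add (hX 1)).add (hX 2))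
  · exact (hXX 0 3).add (hX2 1)
  · exact hL _ 3 (((hX 0).add (hX 1)).add (hCX t 2))
  · exact hL _ 3 ((hX 1).add (hX 2))
  · exact ((hXX 0 3).add (hX2 1)).add (hCX2 _ 2)
  · refine ((hXX 0 3).add (hCX2 _ 1)).add (hL _ 3 ?_)
    have := (hC t).mul ((hX 1).add (hX 2))
    simpa using this

section Closure

variable (f : Fin 4 → MvPolynomial (Fin 4) F)

lemma alg_gen (i : Fin 4) : IsAlgebraic (Algebra.adjoin F (Set.range f)) (f i) := by
  have : f i = algebraMap (Algebra.adjoin F (Set.range f)) (MvPolynomial (Fin 4) F)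
      ⟨f i, Algebra.subset_adjoin ⟨i, rfl⟩⟩ := rfl
  rw [this]
  exact isAlgebraic_algebraMap _

lemma alg_C (a : F) : IsAlgebraic (Algebra.adjoin F (Set.range f))
    (C a : MvPolynomial (Fin 4) F) := by
  have : (C a : MvPolynomial (Fin 4) F) =
      algebraMap (Algebra.adjoin F (Set.range f)) (MvPolynomial (Fin 4) F)
        (algebraMap F _ a) := by
    rw [← IsScalarTower.algebraMap_apply]
    rfl
  rw [this]
  exact isAlgebraic_algebraMap _

variable {f}

lemma cancel {y z : MvPolynomial (Fin 4) F} (hy : y ≠ 0)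
    (h1 : IsAlgebraic (Algebra.adjoin F (Set.range f)) y)
    (h2 : IsAlgebraic (Algebra.adjoin F (Set.range f)) (y * z)) :
    IsAlgebraic (Algebra.adjoin F (Set.range f)) z :=
  h1.of_mul (mem_nonZeroDivisors_of_ne_zero hy) h2

lemma all_alg (h0 : IsAlgebraic (Algebra.adjoin F (Set.range f)) (X 0 : MvPolynomial (Fin 4) F))
    (h1 : IsAlgebraic (Algebra.adjoin F (Set.range f)) (X 1 : MvPolynomial (Fin 4) F))
    (h2 : IsAlgebraic (Algebra.adjoin F (Set.range f)) (X 2 : MvPolynomial (Fin 4) F))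
    (h3 : IsAlgebraic (Algebra.adjoin F (Set.range f)) (X 3 : MvPolynomial (Fin 4) F)) :
    ∀ i, IsAlgebraic (Algebra.adjoin F (Set.range f)) (X i : MvPolynomial (Fin 4) F) := by
  intro i
  fin_cases i
  exacts [h0, h1, h2, h3]

end Closure

lemma ind1 (t : F) : AlgebraicIndependent F (forms t ∘ ![0, 1, 2, 3]) := by
  set f := forms t ∘ ![0, 1, 2, 3] with hf
  have g0 : IsAlgebraic (Algebra.adjoin F (Set.range f)) (X 3 ^ 2 : MvPolynomial (Fin 4) F) :=
    alg_gen f 0
  have g1 : IsAlgebraic (Algebra.adjoin F (Set.range f)) (X 0 * X 3 : MvPolynomial (Fin 4) F) :=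
    alg_gen f 1
  have g2 : IsAlgebraic (Algebra.adjoin F (Set.range f)) (X 1 * X 3 : MvPolynomial (Fin 4) F) :=
    alg_gen f 2
  have g3 : IsAlgebraic (Algebra.adjoin F (Set.range f)) (X 2 * X 3 : MvPolynomial (Fin 4) F) :=
    alg_gen f 3
  have hw := g0.of_pow (by norm_num)
  rw [mul_comm] at g1 g2 g3
  exact indep4 f (all_alg (cancel (X_ne_zero _) hw g1) (cancel (X_ne_zero _) hw g2)
    (cancel (X_ne_zero _) hw g3) hw)

lemma ind2 (t : F) : AlgebraicIndependent F (forms t ∘ ![0, 1, 3, 4]) := by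
  set f := forms t ∘ ![0, 1, 3, 4] with hf
  have g0 : IsAlgebraic (Algebra.adjoin F (Set.range f)) (X 3 ^ 2 : MvPolynomial (Fin 4) F) :=
    alg_gen f 0
  have g1 : IsAlgebraic (Algebra.adjoin F (Set.range f)) (X 0 * X 3 : MvPolynomial (Fin 4) F) :=
    alg_gen f 1
  have g2 : IsAlgebraic (Algebra.adjoin F (Set.range f)) (X 2 * X 3 : MvPolynomial (Fin 4) F) :=
    alg_gen f 2
  have g3 : IsAlgebraic (Algebra.adjoin F (Set.range f))
      ((X 0 + X 1 + X 2) * X 3 : MvPolynomial (Fin 4) F) :=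
    alg_gen f 3
  have hw := g0.of_pow (by norm_num)
  rw [mul_comm] at g1 g2 g3
  have hx := cancel (X_ne_zero _) hw g1
  have hz := cancel (X_ne_zero _) hw g2
  have hs := cancel (X_ne_zero _) hw g3
  have hy : IsAlgebraic (Algebra.adjoin F (Set.range f)) (X 1 : MvPolynomial (Fin 4) F) := by
    have := (hs.sub hx).sub hz
    have e : (X 0 + X 1 + X 2 - X 0 - X 2 : MvPolynomial (Fin 4) F) = X 1 := by ring
    rwa [e] at this
  exact indep4 f (all_alg hx hy hz hw)

lemma ind3 (t : F) (h0 : t ≠ 0) : AlgebraicIndependent F (forms t ∘ ![0, 1, 2, 6]) := by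
  set f := forms t ∘ ![0, 1, 2, 6] with hf
  have g0 : IsAlgebraic (Algebra.adjoin F (Set.range f)) (X 3 ^ 2 : MvPolynomial (Fin 4) F) :=
    alg_gen f 0
  have g1 : IsAlgebraic (Algebra.adjoin F (Set.range f)) (X 0 * X 3 : MvPolynomial (Fin 4) F) :=
    alg_gen f 1
  have g2 : IsAlgebraic (Algebra.adjoin F (Set.range f)) (X 1 * X 3 : MvPolynomial (Fin 4) F) :=
    alg_gen f 2
  have g3 : IsAlgebraic (Algebra.adjoin F (Set.range f))
      ((X 0 + X 1 + C t * X 2) * X 3 : MvPolynomial (Fin 4) F) :=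
    alg_gen f 3
  have hw := g0.of_pow (by norm_num)
  rw [mul_comm] at g1 g2 g3
  have hx := cancel (X_ne_zero _) hw g1
  have hy := cancel (X_ne_zero _) hw g2
  have hs := cancel (X_ne_zero _) hw g3
  have hz : IsAlgebraic (Algebra.adjoin F (Set.range f)) (X 2 : MvPolynomial (Fin 4) F) := by
    have := (hs.sub hx).sub hy
    have e : (X 0 + X 1 + C t * X 2 - X 0 - X 1 : MvPolynomial (Fin 4) F) = C t * X 2 := by ring
    rw [e] at this
    refine cancel (y := C t) ?_ (alg_C f t) this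
    simpa using h0
  exact indep4 f (all_alg hx hy hz hw)

lemma ind4 (t : F) : AlgebraicIndependent F (forms t ∘ ![0, 2, 5, 3]) := by
  set f := forms t ∘ ![0, 2, 5, 3] with hf
  have g0 : IsAlgebraic (Algebra.adjoin F (Set.range f)) (X 3 ^ 2 : MvPolynomial (Fin 4) F) :=
    alg_gen f 0
  have g1 : IsAlgebraic (Algebra.adjoin F (Set.range f)) (X 1 * X 3 : MvPolynomial (Fin 4) F) :=
    alg_gen f 1
  have g2 : IsAlgebraic (Algebra.adjoin F (Set.range f))
      (X 0 * X 3 + X 1 ^ 2 : MvPolynomial (Fin 4) F) :=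
    alg_gen f 2
  have g3 : IsAlgebraic (Algebra.adjoin F (Set.range f)) (X 2 * X 3 : MvPolynomial (Fin 4) F) :=
    alg_gen f 3
  have hw := g0.of_pow (by norm_num)
  rw [mul_comm] at g1 g3
  have hy := cancel (X_ne_zero _) hw g1
  have hz := cancel (X_ne_zero _) hw g3
  have hx : IsAlgebraic (Algebra.adjoin F (Set.range f)) (X 0 : MvPolynomial (Fin 4) F) := by
    have := g2.sub (hy.pow 2)
    have e : (X 0 * X 3 + X 1 ^ 2 - X 1 ^ 2 : MvPolynomial (Fin 4) F) = X 3 * X 0 := by ring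
    rw [e] at this
    exact cancel (X_ne_zero _) hw this
  exact indep4 f (all_alg hx hy hz hw)

lemma ind5 (t : F) : AlgebraicIndependent F (forms t ∘ ![0, 2, 5, 4]) := by
  set f := forms t ∘ ![0, 2, 5, 4] with hf
  have g0 : IsAlgebraic (Algebra.adjoin F (Set.range f)) (X 3 ^ 2 : MvPolynomial (Fin 4) F) :=
    alg_gen f 0
  have g1 : IsAlgebraic (Algebra.adjoin F (Set.range f)) (X 1 * X 3 : MvPolynomial (Fin 4) F) :=
    alg_gen f 1
  have g2 : IsAlgebraic (Algebra.adjoin F (Set.range f))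
      (X 0 * X 3 + X 1 ^ 2 : MvPolynomial (Fin 4) F) :=
    alg_gen f 2
  have g3 : IsAlgebraic (Algebra.adjoin F (Set.range f))
      ((X 0 + X 1 + X 2) * X 3 : MvPolynomial (Fin 4) F) :=
    alg_gen f 3
  have hw := g0.of_pow (by norm_num)
  rw [mul_comm] at g1 g3
  have hy := cancel (X_ne_zero _) hw g1
  have hs := cancel (X_ne_zero _) hw g3
  have hx : IsAlgebraic (Algebra.adjoin F (Set.range f)) (X 0 : MvPolynomial (Fin 4) F) := by
    have := g2.sub (hy.pow 2)
    have e : (X 0 * X 3 + X 1 ^ 2 - X 1 ^ 2 : MvPolynomial (Fin 4) F) = X 3 * X 0 := by ring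
    rw [e] at this
    exact cancel (X_ne_zero _) hw this
  have hz : IsAlgebraic (Algebra.adjoin F (Set.range f)) (X 2 : MvPolynomial (Fin 4) F) := by
    have := (hs.sub hx).sub hy
    have e : (X 0 + X 1 + X 2 - X 0 - X 1 : MvPolynomial (Fin 4) F) = X 2 := by ring
    rwa [e] at this
  exact indep4 f (all_alg hx hy hz hw)

lemma ind6 [CharP F 2] (t : F) (h0 : t ≠ 0) (h1 : t ≠ 1) :
    AlgebraicIndependent F (forms t ∘ ![0, 9, 8, 7]) := by
  have h2 : (2 : MvPolynomial (Fin 4) F) = 0 := by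
    have : (2 : F) = 0 := CharTwo.two_eq_zero
    rw [← map_ofNat (C : F →+* MvPolynomial (Fin 4) F) 2, this, map_zero]
  set f := forms t ∘ ![0, 9, 8, 7] with hf
  have g0 : IsAlgebraic (Algebra.adjoin F (Set.range f)) (X 3 ^ 2 : MvPolynomial (Fin 4) F) :=
    alg_gen f 0
  have g1 : IsAlgebraic (Algebra.adjoin F (Set.range f))
      (X 0 * X 3 + C (1 + t) * X 1 ^ 2 + C t * (X 1 + X 2) * X 3 : MvPolynomial (Fin 4) F) :=
    alg_gen f 1
  have g2 : IsAlgebraic (Algebra.adjoin F (Set.range f))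
      (X 0 * X 3 + X 1 ^ 2 + C (t ^ 2) * X 2 ^ 2 : MvPolynomial (Fin 4) F) :=
    alg_gen f 2
  have g3 : IsAlgebraic (Algebra.adjoin F (Set.range f))
      ((X 1 + X 2) * X 3 : MvPolynomial (Fin 4) F) :=
    alg_gen f 3
  have hw := g0.of_pow (by norm_num)
  have g4 := g3
  rw [mul_comm] at g4
  have hs := cancel (X_ne_zero _) hw g4
  have hz : IsAlgebraic (Algebra.adjoin F (Set.range f)) (X 2 : MvPolynomial (Fin 4) F) := by
    have := (((g1.add g2).sub ((alg_C f t).mul g3)).sub ((alg_C f t).mul (hs.pow 2)))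
    have e : (X 0 * X 3 + C (1 + t) * X 1 ^ 2 + C t * (X 1 + X 2) * X 3 +
        (X 0 * X 3 + X 1 ^ 2 + C (t ^ 2) * X 2 ^ 2) - C t * ((X 1 + X 2) * X 3) -
        C t * (X 1 + X 2) ^ 2 : MvPolynomial (Fin 4) F) = C (t ^ 2 - t) * X 2 ^ 2 := by
      simp only [C_add, C_sub, C_pow, C_1]
      linear_combination (X 0 * X 3 + X 1 ^ 2 - C t * X 1 * X 2 : MvPolynomial (Fin 4) F) * h2
    rw [e] at this
    refine (cancel (y := C (t ^ 2 - t)) ?_ (alg_C f _) this).of_pow (by norm_num)
    have h3 : t ^ 2 - t ≠ 0 := by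
      have : t ^ 2 - t = t * (t - 1) := by ring
      rw [this]
      exact mul_ne_zero h0 (sub_ne_zero.2 h1)
    exact (map_ne_zero_iff _ (C_injective _ _)).2 h3
  have hy : IsAlgebraic (Algebra.adjoin F (Set.range f)) (X 1 : MvPolynomial (Fin 4) F) := by
    have := hs.sub hz
    have e : (X 1 + X 2 - X 2 : MvPolynomial (Fin 4) F) = X 1 := by ring
    rwa [e] at this
  have hx : IsAlgebraic (Algebra.adjoin F (Set.range f)) (X 0 : MvPolynomial (Fin 4) F) := by
    have := (g2.sub (hy.pow 2)).sub ((alg_C f (t ^ 2)).mul (hz.pow 2))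
    have e : (X 0 * X 3 + X 1 ^ 2 + C (t ^ 2) * X 2 ^ 2 - X 1 ^ 2 - C (t ^ 2) * X 2 ^ 2 :
        MvPolynomial (Fin 4) F) = X 3 * X 0 := by ring
    rw [e] at this
    exact cancel (X_ne_zero _) hw this
  exact indep4 f (all_alg hx hy hz hw)

lemma comp_eq (t : F) (a b c d : Fin 10) :
    forms t ∘ ![a, b, c, d] = ![forms t a, forms t b, forms t c, forms t d] := by
  ext i
  fin_cases i <;> rfl

lemma dp1 (t : F) : ¬ AlgebraicIndependent F (forms t ∘ ![4, 1, 2, 3]) := by
  rw [comp_eq]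
  refine dep4 (X 0 - X 1 - X 2 - X 3) ?_ ![1, 0, 0, 0] (by simp)
  simp [forms]
  ring

lemma dp2 (t : F) : ¬ AlgebraicIndependent F (forms t ∘ ![5, 0, 1, 2]) := by
  rw [comp_eq]
  refine dep4 (X 0 * X 1 - X 2 * X 1 - X 3 ^ 2) ?_ ![1, 1, 0, 0] (by simp)
  simp [forms]
  ring

lemma dp3 (t : F) : ¬ AlgebraicIndependent F (forms t ∘ ![6, 0, 3, 4]) := by
  rw [comp_eq]
  refine dep4 (X 0 - X 3 - C (t - 1) * X 2) ?_ ![1, 0, 0, 0] (by simp)
  simp [forms]
  ring

lemma dp4 (t : F) : ¬ AlgebraicIndependent F (forms t ∘ ![7, 0, 1, 4]) := by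
  rw [comp_eq]
  refine dep4 (X 0 - X 3 + X 2) ?_ ![1, 0, 0, 0] (by simp)
  simp [forms]
  ring

lemma dp5 (t : F) : ¬ AlgebraicIndependent F (forms t ∘ ![7, 0, 2, 3]) := by
  rw [comp_eq]
  refine dep4 (X 0 - X 2 - X 3) ?_ ![1, 0, 0, 0] (by simp)
  simp [forms]
  ring

lemma dp6 [CharP F 2] (t : F) : ¬ AlgebraicIndependent F (forms t ∘ ![8, 0, 1, 6]) := by
  have h2 : (2 : MvPolynomial (Fin 4) F) = 0 := by
    have : (2 : F) = 0 := CharTwo.two_eq_zero
    rw [← map_ofNat (C : F →+* MvPolynomial (Fin 4) F) 2, this, map_zero]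
  rw [comp_eq]
  refine dep4 (X 0 * X 1 - X 2 * X 1 - X 3 ^ 2 + X 2 ^ 2) ?_ ![1, 1, 0, 0] (by simp)
  simp [forms]
  linear_combination (-(X 0 * X 1 + C t * X 0 * X 2 + C t * X 1 * X 2) * X 3 ^ 2 :
    MvPolynomial (Fin 4) F) * h2

lemma dp7 (t : F) : ¬ AlgebraicIndependent F (forms t ∘ ![8, 0, 5, 3]) := by
  rw [comp_eq]
  refine dep4 (X 0 * X 1 - X 2 * X 1 - C (t ^ 2) * X 3 ^ 2) ?_ ![1, 1, 0, 0] (by simp)
  simp [forms]
  ring

lemma dp8 (t : F) : ¬ AlgebraicIndependent F (forms t ∘ ![9, 0, 2, 6]) := by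
  rw [comp_eq]
  refine dep4 (X 0 * X 1 - X 3 * X 1 - C (1 + t) * X 2 ^ 2 - C (t - 1) * X 2 * X 1) ?_
    ![1, 1, 0, 0] (by simp)
  simp [forms]
  ring

lemma dp9 [CharP F 2] (t : F) : ¬ AlgebraicIndependent F (forms t ∘ ![9, 0, 5, 4]) := by
  have h2 : (2 : MvPolynomial (Fin 4) F) = 0 := by
    have : (2 : F) = 0 := CharTwo.two_eq_zero
    rw [← map_ofNat (C : F →+* MvPolynomial (Fin 4) F) 2, this, map_zero]
  rw [comp_eq]
  refine dep4 (X 0 - C (1 + t) * X 2 - C t * X 3) ?_ ![1, 0, 0, 0] (by simp)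
  simp [forms]
  linear_combination (-C t * X 0 * X 3 : MvPolynomial (Fin 4) F) * h2

end Algebraic

/-- Over every field `F` of characteristic two with an element `t` other than `0` and `1`, there
are ten quadratic forms in four variables such that no family of vectors over any field has the
same independent sets as the algebraic matroid of these forms. -/
theorem result (F : Type u) [Field F] [CharP F 2] (hF : ∃ t : F, t ≠ 0 ∧ t ≠ 1) :
    ∃ g : Fin 10 → MvPolynomial (Fin 4) F, (∀ i, (g i).IsHomogeneous 2) ∧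
      ∀ (K : Type v) [Field K] (V : Type w) [AddCommGroup V] [Module K V] (x : Fin 10 → V),
        ¬ ∀ S : Set (Fin 10), LinearIndepOn K x S ↔ AlgebraicIndependent F (fun i : S => g i) := by
  obtain ⟨t, h0, h1⟩ := hF
  refine ⟨forms t, forms_hom t, ?_⟩
  intro K _ V _ _ x hx
  have key : ∀ a b c d : Fin 10, Function.Injective ![a, b, c, d] →
      (LinearIndependent K ![x a, x b, x c, x d] ↔
        AlgebraicIndependent F (forms t ∘ ![a, b, c, d])) := by
    intro a b c d hi
    have e1 : ![x a, x b, x c, x d] = x ∘ ![a, b, c, d] := by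
      ext i
      fin_cases i <;> rfl
    rw [e1, ← linearIndepOn_range_iff hi, hx]
    exact (algebraicIndependent_equiv' (Equiv.ofInjective _ hi) rfl).symm
  refine pappus (K := K) ((key 0 1 2 3 (by decide)).2 (ind1 t))
    ((key 0 1 3 4 (by decide)).2 (ind2 t)) ((key 0 1 2 6 (by decide)).2 (ind3 t h0))
    ((key 0 2 5 3 (by decide)).2 (ind4 t)) ((key 0 2 5 4 (by decide)).2 (ind5 t))
    ((key 4 1 2 3 (by decide)).not.2 (dp1 t))
    ((key 5 0 1 2 (by decide)).not.2 (dp2 t))
    ((key 6 0 3 4 (by decide)).not.2 (dp3 t))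
    ((key 7 0 1 4 (by decide)).not.2 (dp4 t))
    ((key 7 0 2 3 (by decide)).not.2 (dp5 t))
    ((key 8 0 1 6 (by decide)).not.2 (dp6 t))
    ((key 8 0 5 3 (by decide)).not.2 (dp7 t))
    ((key 9 0 2 6 (by decide)).not.2 (dp8 t))
    ((key 9 0 5 4 (by decide)).not.2 (dp9 t))
    ((key 0 9 8 7 (by decide)).2 (ind6 t h0 h1))


end Pool.Agent.Results.MP_188fab_co.QuadraticNotLinear
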